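import Pool.Agent.K3h53.LT.Stm

set_option autoImplicit false

/-!
# Brick SUM for MP_c84763_mp (owner helper53)
-/

open MeasureTheory Filter Topology Set
open scoped ENNReal NNReal ContDiff

namespace Pool.Agent.K3h46.LT

open Pool.Agent.Helper41.CE Pool.Agent.K3h53.LT

variable {d : ℕ}

theorem contDiff_pd {Y : E d → ℂ} (h : ContDiff ℝ ∞ Y) (i : Fin d) : ContDiff ℝ ∞ (pd i Y) := by
  unfold pd
  exact (h.fderiv_right (m := ∞) (by simp)).clm_apply contDiff_const

theorem pd_add {Y Y' : E d → ℂ} (h : ContDiff ℝ ∞ Y) (h' : ContDiff ℝ ∞ Y') (i : Fin d) :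
    pd i (fun x => Y x + Y' x) = fun x => pd i Y x + pd i Y' x := by
  funext x
  unfold pd
  rw [fderiv_fun_add (h.differentiable (by simp)).differentiableAt
    (h'.differentiable (by simp)).differentiableAt]
  rfl

theorem pd_const_mul {Y : E d → ℂ} (h : ContDiff ℝ ∞ Y) (c : ℂ) (i : Fin d) :
    pd i (fun x => c * Y x) = fun x => c * pd i Y x := by
  funext x
  unfold pd
  rw [fderiv_const_mul (h.differentiable (by simp)).differentiableAt c]
  rfl

theorem HH_zero (ℓ : ℕ) : HH d ℓ (fun _ => 0) := by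
  refine ⟨contDiff_const, fun t x => by simp, fun x => ?_⟩
  apply Finset.sum_eq_zero
  intro i _
  have h1 : pd i (fun _ : E d => (0:ℂ)) = fun _ => 0 := by
    funext y
    unfold pd
    simp
  rw [h1, h1]

theorem HH_add {ℓ : ℕ} {Y Y' : E d → ℂ} (h : HH d ℓ Y) (h' : HH d ℓ Y') :
    HH d ℓ (fun x => Y x + Y' x) := by
  refine ⟨h.1.add h'.1, fun t x => by
    show Y (t • x) + Y' (t • x) = (t : ℂ) ^ ℓ * (Y x + Y' x)
    rw [h.2.1, h'.2.1]; ring, fun x => ?_⟩
  have h1 : ∀ i, pd i (pd i (fun x => Y x + Y' x)) x = pd i (pd i Y) x + pd i (pd i Y') x := by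
    intro i
    rw [pd_add h.1 h'.1, pd_add (contDiff_pd h.1 i) (contDiff_pd h'.1 i)]
  simp_rw [h1]
  rw [Finset.sum_add_distrib, h.2.2, h'.2.2, add_zero]

theorem HH_const_mul {ℓ : ℕ} {Y : E d → ℂ} (h : HH d ℓ Y) (c : ℂ) : HH d ℓ (fun x => c * Y x) := by
  refine ⟨contDiff_const.mul h.1, fun t x => by
    show c * Y (t • x) = (t : ℂ) ^ ℓ * (c * Y x)
    rw [h.2.1]; ring, fun x => ?_⟩
  have h1 : ∀ i, pd i (pd i (fun x => c * Y x)) x = c * pd i (pd i Y) x := by
    intro i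
    rw [pd_const_mul h.1, pd_const_mul (contDiff_pd h.1 i)]
  simp_rw [h1]
  rw [← Finset.mul_sum, h.2.2, mul_zero]

theorem HH_sum {ℓ : ℕ} {κ : Type} (s : Finset κ) (c : κ → ℂ) (Y : κ → E d → ℂ)
    (h : ∀ j ∈ s, HH d ℓ (Y j)) : HH d ℓ (fun x => ∑ j ∈ s, c j * Y j x) := by
  classical
  induction s using Finset.induction_on with
  | empty => simpa using HH_zero ℓ
  | insert a s ha ih =>
    simp_rw [Finset.sum_insert ha]
    exact HH_add (HH_const_mul (h a (Finset.mem_insert_self _ _)) _)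
      (ih (fun j hj => h j (Finset.mem_insert_of_mem hj)))

/-- Lower bound of the multiplicity by a finite independent family of eigenfunctions. -/
theorem le_mult {V : E d → ℂ} {h : ℝ} {z : ℂ} {κ : Type} (S : Finset κ) (u : κ → E d → ℂ)
    (hG : ∀ k ∈ S, Graph V h (u k) (fun x => z * u k x))
    (hI : ∀ c : κ → ℂ, (fun x => ∑ k ∈ S, c k * u k x) =ᵐ[volume] 0 → ∀ k ∈ S, c k = 0) :
    (S.card : ℝ≥0∞) ≤ mult V h z := by
  classical
  unfold mult
  refine le_iSup_of_le S.card (le_iSup_of_le ?_ le_rfl)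
  set e := S.equivFin with he
  refine ⟨fun i => u (e.symm i), fun i => ⟨1, fun _ => 0, Filter.EventuallyEq.rfl, ?_⟩, ?_⟩
  · simpa using hG _ (e.symm i).2
  · intro c hc
    set c' : κ → ℂ := fun k => if hk : k ∈ S then c (e ⟨k, hk⟩) else 0 with hc'
    have h1 : (fun x => ∑ k ∈ S, c' k * u k x) =ᵐ[volume] 0 := by
      refine EventuallyEq.trans ?_ hc
      refine Eventually.of_forall (fun x => ?_)
      show ∑ k ∈ S, c' k * u k x = ∑ i, c i * u (e.symm i) x
      rw [← Finset.sum_coe_sort S (fun k => c' k * u k x), ← e.symm.sum_comp]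
      apply Finset.sum_congr rfl
      intro i _
      have h2 : c' (e.symm i) = c i := by
        rw [hc']
        simp only
        rw [dif_pos (e.symm i).2]
        simp
      rw [h2]
    have h2 := hI c' h1
    funext i
    have h3 := h2 _ (e.symm i).2
    rw [hc'] at h3
    simp only at h3
    rw [dif_pos (e.symm i).2] at h3
    simpa using h3

theorem zero_of_ae {g : E d → ℂ} (hg : ContinuousOn g {x | x ≠ 0})
    (h0 : g =ᵐ[volume] 0) (x : E d) (hx : x ≠ 0) : g x = 0 := by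
  have hopen : IsOpen {x : E d | x ≠ 0} := isOpen_ne
  by_contra hne
  set U : Set (E d) := {x | x ≠ 0} ∩ g ⁻¹' {y | y ≠ 0} with hU
  have hUo : IsOpen U := hg.isOpen_inter_preimage hopen isOpen_ne
  have hUx : x ∈ U := ⟨hx, hne⟩
  have h1 : 0 < volume U := hUo.measure_pos volume ⟨x, hUx⟩
  have h2 : volume U = 0 := by
    apply measure_mono_null _ h0
    rintro y ⟨-, hy⟩
    exact hy
  rw [h2] at h1
  exact lt_irrefl _ h1

theorem t_sum : St_sum := by
  classical
  intro hindep d γ σ h V Λ Z N f Y hd hZ hY hlin hf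
  have key : ∀ z : ℂ, ((∑ ℓ ∈ Λ.filter (fun ℓ => z ∈ Z ℓ), N ℓ : ℕ) : ℝ≥0∞) ≤ mult V h z := by
    intro z
    set Λz := Λ.filter (fun ℓ => z ∈ Z ℓ) with hΛz
    set S : Finset (Σ ℓ : ℕ, Fin (N ℓ)) := Λz.sigma (fun _ => Finset.univ) with hS
    have hcard : S.card = ∑ ℓ ∈ Λz, N ℓ := by
      rw [hS, Finset.card_sigma]
      simp
    rw [← hcard]
    have hmemΛ : ∀ ℓ ∈ Λz, ℓ ∈ Λ ∧ z ∈ Z ℓ := fun ℓ hℓ => Finset.mem_filter.1 hℓ
    apply le_mult S (fun k x => f k.1 z ‖x‖ * Y k.1 k.2 x)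
    · intro k hk
      obtain ⟨h1, h2⟩ := hmemΛ k.1 (Finset.mem_sigma.1 hk).1
      exact (hf k.1 h1 z h2).2.2 _ (hY k.1 h1 k.2)
    · intro c hc
      have hcont : ContinuousOn (fun x : E d => ∑ k ∈ S, c k * (f k.1 z ‖x‖ * Y k.1 k.2 x))
          {x | x ≠ 0} := by
        apply continuousOn_finsetSum
        intro k hk
        obtain ⟨h1, h2⟩ := hmemΛ k.1 (Finset.mem_sigma.1 hk).1
        have h3 : ContinuousOn (fun x : E d => f k.1 z ‖x‖) {x | x ≠ 0} :=
          (hf k.1 h1 z h2).1.comp continuous_norm.continuousOn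
            (fun x hx => norm_pos_iff.2 hx)
        exact continuousOn_const.mul (h3.mul (hY k.1 h1 k.2).1.continuous.continuousOn)
      have hzero : ∀ x : E d, x ≠ 0 → ∑ k ∈ S, c k * (f k.1 z ‖x‖ * Y k.1 k.2 x) = 0 :=
        fun x hx => zero_of_ae hcont hc x hx
      intro k0 hk0
      obtain ⟨h1, h2⟩ := hmemΛ k0.1 (Finset.mem_sigma.1 hk0).1
      obtain ⟨r, hr, hfr⟩ := (hf k0.1 h1 z h2).2.1
      set H : ℕ → E d → ℂ := fun ℓ x => f ℓ z r * ∑ j : Fin (N ℓ), c ⟨ℓ, j⟩ * Y ℓ j x with hH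
      have hHH : ∀ ℓ ∈ Λz, HH d ℓ (H ℓ) := by
        intro ℓ hℓ
        exact HH_const_mul (HH_sum Finset.univ (fun j => c ⟨ℓ, j⟩) (Y ℓ)
          (fun j _ => hY ℓ (hmemΛ ℓ hℓ).1 j)) _
      have hsph : ∀ x : E d, ‖x‖ = r → ∑ ℓ ∈ Λz, H ℓ x = 0 := by
        intro x hx
        have hx0 : x ≠ 0 := by
          rw [← norm_pos_iff, hx]
          exact hr
        have h3 := hzero x hx0
        rw [hS, Finset.sum_sigma, hx] at h3
        rw [← h3]
        apply Finset.sum_congr rfl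
        intro ℓ _
        simp only [hH]
        rw [Finset.mul_sum]
        apply Finset.sum_congr rfl
        intro j _
        ring
      have h3 := hindep d Λz H r hd hr hHH hsph k0.1 (Finset.mem_sigma.1 hk0).1
      have h4 : ∑ j : Fin (N k0.1), c ⟨k0.1, j⟩ • Y k0.1 j = 0 := by
        funext x
        rw [Finset.sum_apply]
        have h5 := h3 x
        simp only [hH] at h5
        rcases mul_eq_zero.1 h5 with h6 | h6
        · exact absurd h6 hfr
        · simpa using h6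
      have h5 := Fintype.linearIndependent_iff.1 (hlin k0.1 h1) (fun j => c ⟨k0.1, j⟩) h4 k0.2
      exact h5
  set w : ℂ → ℝ≥0∞ := fun z => ENNReal.ofReal (‖z‖ ^ (-σ) * dRay z ^ (γ + σ)) with hw
  set ZZ : Finset ℂ := Λ.biUnion Z with hZZ
  have hZZp : ∀ z ∈ ZZ, z ∉ posRay := by
    intro z hz
    obtain ⟨ℓ, h1, h2⟩ := Finset.mem_biUnion.1 hz
    exact hZ ℓ h1 z h2
  calc ∑ ℓ ∈ Λ, ∑ z ∈ Z ℓ, (N ℓ : ℝ≥0∞) * w z
      = ∑ ℓ ∈ Λ, ∑ z ∈ ZZ, if z ∈ Z ℓ then (N ℓ : ℝ≥0∞) * w z else 0 := by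
        apply Finset.sum_congr rfl
        intro ℓ hℓ
        rw [← Finset.sum_filter]
        apply Finset.sum_congr _ (fun _ _ => rfl)
        ext z
        rw [Finset.mem_filter, hZZ, Finset.mem_biUnion]
        exact ⟨fun h => ⟨⟨ℓ, hℓ, h⟩, h⟩, fun h => h.2⟩
    _ = ∑ z ∈ ZZ, ∑ ℓ ∈ Λ, if z ∈ Z ℓ then (N ℓ : ℝ≥0∞) * w z else 0 := Finset.sum_comm
    _ ≤ ∑ z ∈ ZZ, if z ∈ posRay then 0 else mult V h z * w z := by
        apply Finset.sum_le_sum
        intro z hz
        rw [if_neg (hZZp z hz), ← Finset.sum_filter, ← Finset.sum_mul]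
        gcongr
        have := key z
        push_cast at this
        exact this
    _ ≤ SS γ σ V h := by
        unfold SS
        exact ENNReal.sum_le_tsum ZZ

end Pool.Agent.K3h46.LT
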